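import Mathlib
import Pool.Agent.Q174.Spindle
import Pool.Agent.Q174.LiouDiam

/-!
# A finite-area conformal metric on the plane with curvature at least one and diameter above `π`

The metric is `e^{2u} |dz|²` with
`u = log c + ∑_{p = ±1} (-t_p - log cosh (t_p / 10 + 4))`, `t_p = (1/2) log (|z - p|² + e^{-160})`:
two thin smoothed spindles, glued near the point at infinity.
-/

set_option autoImplicit false

open MeasureTheory Laplacian InnerProductSpace Filter Topology Set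

namespace Pool.Agent.Results.MP_0fb7ac_an.DiameterAbovePi

/-- `u` is a (classical, global) supersolution of the Liouville equation on `ℝ² = ℂ`:
`u ∈ C²` and `Δu + e^{2u} ≤ 0`. -/
def IsSupersolution (u : ℂ → ℝ) : Prop :=
  ContDiff ℝ 2 u ∧ ∀ z, Δ u z + Real.exp (2 * u z) ≤ 0

/-- The area of the plane in the metric `e^{2u} |dz|²`. -/
noncomputable def area (u : ℂ → ℝ) : ENNReal := ∫⁻ z : ℂ, ENNReal.ofReal (Real.exp (2 * u z))

/-- `γ` is a piecewise `C¹` curve on `[0, 1]`: it is continuous, and for some partition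
`0 = t_0 ≤ t_1 ≤ … ≤ t_n = 1` it is `C¹` on each `[t_i, t_{i+1}]`. -/
def PiecewiseC1 (γ : ℝ → ℂ) : Prop :=
  ContinuousOn γ (Icc 0 1) ∧ ∃ (n : ℕ) (t : ℕ → ℝ), Monotone t ∧ t 0 = 0 ∧ t n = 1 ∧
    ∀ i < n, ContDiffOn ℝ 1 γ (Icc (t i) (t (i + 1)))

/-- The length of `γ` in the metric `e^{2u} |dz|²`. -/
noncomputable def len (u : ℂ → ℝ) (γ : ℝ → ℂ) : ENNReal :=
  ∫⁻ t in Icc (0 : ℝ) 1, ENNReal.ofReal (Real.exp (u (γ t)) * ‖deriv γ t‖)

/-- The distance of `x` and `y`: the infimum of the lengths of the piecewise `C¹` curves from `x`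
to `y`. -/
noncomputable def dist (u : ℂ → ℝ) (x y : ℂ) : ENNReal :=
  ⨅ (γ : ℝ → ℂ) (_ : PiecewiseC1 γ ∧ γ 0 = x ∧ γ 1 = y), len u γ

/-- The diameter of the plane. -/
noncomputable def diam (u : ℂ → ℝ) : ENNReal := ⨆ (x : ℂ) (y : ℂ), dist u x y

/-- There is a supersolution of finite area whose diameter exceeds `π`. -/
theorem result : ∃ u : ℂ → ℝ, IsSupersolution u ∧ area u < ⊤ ∧ ENNReal.ofReal Real.pi < diam u := by
  refine ⟨Q174.Spindle.u, ⟨Q174.Spindle.contDiff_u, Q174.Spindle.super⟩, Q174.Spindle.area, ?_⟩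
  have key : ENNReal.ofReal (1130 / 1000 * (Real.pi - 2 / 9)) ≤ diam Q174.Spindle.u := by
    refine le_trans ?_ (le_iSup₂ (f := fun x y => dist Q174.Spindle.u x y) (1 : ℂ) (-1 : ℂ))
    refine le_iInf₂ fun γ hγ => ?_
    obtain ⟨hγ, h0, h1⟩ := hγ
    obtain ⟨S, hS, hd⟩ := Q174.LiouDiam.PiecewiseC1.diff hγ
    exact Q174.Spindle.length_lower hγ.1 hS hd h0 h1
  refine lt_of_lt_of_le ?_ key
  have := Real.pi_gt_three
  rw [ENNReal.ofReal_lt_ofReal_iff (by linarith)]
  linarith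

end Pool.Agent.Results.MP_0fb7ac_an.DiameterAbovePi
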